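import Mathlib

/-!
# Exponential IP sets of type I: the `r`-cell question fails for every `r ≥ 3`

The level of `n` is the number of iterated binary logarithms needed to bring `n` down to at most
`1`.  If `2 ≤ x < y` then the level of `x ^ y` is the level of `y` plus one or plus two, hence `y`
and `x ^ y` have levels in different classes modulo `3`.
-/

set_option autoImplicit false

namespace Pool.Agent.Results.MP_952e1b_co.TypeIThreeCells

/-- `FEI x n` is the set `FE^I_n(X)` of the problem, where `X = {x 0 < x 1 < x 2 < ⋯}`. -/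
def FEI (x : ℕ → ℕ) : ℕ → Set ℕ
  | 0 => {x 0}
  | n + 1 => {z | ∃ y ∈ FEI x n, z = y ^ x (n + 1)} ∪ FEI x n ∪ {x (n + 1)}

/-- `C` is an exponential IP set of type I: it contains `FE^I(X) = ⋃ n, FE^I_n(X)` for some
infinite set `X` of natural numbers, listed increasingly as `x 0 < x 1 < x 2 < ⋯`. -/
def IsExpIPTypeI (C : Set ℕ) : Prop :=
  ∃ x : ℕ → ℕ, StrictMono x ∧ ∀ n, FEI x n ⊆ C

/-- The number of iterated binary logarithms that bring `n` down to at most `1`. -/
def lev (n : ℕ) : ℕ :=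
  if h : n ≤ 1 then 0 else lev (Nat.log 2 n) + 1
termination_by n
decreasing_by exact Nat.log_lt_self 2 (by omega)

theorem lev_small {n : ℕ} (h : n ≤ 1) : lev n = 0 := by
  rw [lev, dif_pos h]

theorem lev_big {n : ℕ} (h : 2 ≤ n) : lev n = lev (Nat.log 2 n) + 1 := by
  rw [lev, dif_neg (by omega)]

theorem lev_mono : ∀ {m n : ℕ}, m ≤ n → lev m ≤ lev n := by
  intro m
  induction m using Nat.strong_induction_on with
  | _ m ih =>
    intro n hmn
    by_cases hm : m ≤ 1
    · rw [lev_small hm]; exact Nat.zero_le _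
    · rw [lev_big (n := m) (by omega), lev_big (n := n) (by omega)]
      exact Nat.succ_le_succ (ih _ (Nat.log_lt_self 2 (by omega)) (Nat.log_mono_right hmn))

theorem lev_two_pow {m : ℕ} (h : 1 ≤ m) : lev (2 ^ m) = lev m + 1 := by
  rw [lev_big, Nat.log_pow (by norm_num)]
  calc 2 = 2 ^ 1 := by norm_num
    _ ≤ 2 ^ m := Nat.pow_le_pow_right (by norm_num) h

theorem lev_sq {y : ℕ} (h : 3 ≤ y) : lev (y * y) ≤ lev y + 1 := by
  rcases Nat.lt_or_ge y 4 with h4 | h4
  · obtain rfl : y = 3 := by omega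
    have h1 : Nat.log 2 3 = 1 := by decide
    have h2 : Nat.log 2 (3 * 3) = 3 := by decide
    have h3 : lev 3 = 1 := by rw [lev_big (by norm_num), h1, lev_small le_rfl]
    rw [lev_big (by norm_num), h2, h3]
  · rw [← lev_two_pow (by omega : 1 ≤ y)]
    apply lev_mono
    clear h
    induction y, h4 using Nat.le_induction with
    | base => norm_num
    | succ k hk ih =>
      rw [pow_succ]
      nlinarith

/-- The level of `x ^ y` is the level of `y` plus one or plus two. -/
theorem lev_pow {x y : ℕ} (hx : 2 ≤ x) (hxy : x < y) :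
    lev (x ^ y) = lev y + 1 ∨ lev (x ^ y) = lev y + 2 := by
  have h1 : lev y + 1 ≤ lev (x ^ y) := by
    rw [← lev_two_pow (by omega : 1 ≤ y)]
    exact lev_mono (Nat.pow_le_pow_left hx y)
  have h2 : x ^ y ≤ 2 ^ (y * y) := by
    calc x ^ y ≤ (2 ^ y) ^ y :=
          Nat.pow_le_pow_left ((hxy.trans Nat.lt_two_pow_self).le) y
      _ = 2 ^ (y * y) := by rw [← pow_mul]
  have h3 : lev (x ^ y) ≤ lev (y * y) + 1 := by
    rw [← lev_two_pow (Nat.mul_pos (by omega) (by omega) : 0 < y * y)]
    exact lev_mono h2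
  have h4 := lev_sq (by omega : 3 ≤ y)
  omega

/-- Every level occurs beyond every bound on the residue class modulo 3. -/
theorem lev_surj (N k : ℕ) : ∃ n, N ≤ n ∧ lev n % 3 = k % 3 := by
  have h : ∀ j, ∃ n, N ≤ n ∧ 1 ≤ n ∧ lev n % 3 = (lev (N + 1) + j) % 3 := by
    intro j
    induction j with
    | zero => exact ⟨N + 1, by omega, by omega, rfl⟩
    | succ j ih =>
      obtain ⟨n, h1, h2, h3⟩ := ih
      refine ⟨2 ^ n, h1.trans Nat.lt_two_pow_self.le, Nat.one_le_two_pow, ?_⟩
      rw [lev_two_pow h2]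
      omega
  obtain ⟨n, h1, -, h3⟩ := h (k + 2 * lev (N + 1))
  exact ⟨n, h1, by omega⟩

/-- The colouring with `r ≥ 3` colours: the numbers `n < r - 3` get the private colours `n + 3`,
all other numbers are coloured by their level modulo 3. -/
def col (r : ℕ) (hr : 3 ≤ r) (n : ℕ) : Fin r :=
  if h : n < r - 3 then ⟨n + 3, by omega⟩ else ⟨lev n % 3, by omega⟩

theorem col_ne {r : ℕ} (hr : 3 ≤ r) {x y : ℕ} (hx : 2 ≤ x) (hxy : x < y) :
    col r hr y ≠ col r hr (x ^ y) := by
  have hlt : y < x ^ y := by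
    calc y < 2 ^ y := Nat.lt_two_pow_self
      _ ≤ x ^ y := Nat.pow_le_pow_left hx y
  have hlev := lev_pow hx hxy
  unfold col
  split_ifs with h1 h2 h2 <;> intro h <;> have h' := congrArg Fin.val h <;> simp only at h' <;>
    omega

theorem col_surj {r : ℕ} (hr : 3 ≤ r) : Function.Surjective (col r hr) := by
  rintro ⟨k, hk⟩
  by_cases h : k < 3
  · obtain ⟨n, h1, h2⟩ := lev_surj (r - 3) k
    refine ⟨n, ?_⟩
    unfold col
    rw [dif_neg (by omega)]
    apply Fin.ext
    simp only
    omega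
  · refine ⟨k - 3, ?_⟩
    unfold col
    rw [dif_pos (by omega)]
    apply Fin.ext
    simp only
    omega

theorem mem_FEI_self (x : ℕ → ℕ) (n : ℕ) : x n ∈ FEI x n := by
  cases n with
  | zero => exact rfl
  | succ n => exact Or.inr rfl

/-- For every `r ≥ 3` the natural numbers can be partitioned into `r` (nonempty) cells such that no
cell contains both `y` and `x ^ y` for any `2 ≤ x < y`; in particular none of the cells is an
exponential IP set of type I. -/
theorem result (r : ℕ) (hr : 3 ≤ r) :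
    ∃ c : ℕ → Fin r, Function.Surjective c ∧
      (∀ x y : ℕ, 2 ≤ x → x < y → c y ≠ c (x ^ y)) ∧
      ∀ i : Fin r, ¬ IsExpIPTypeI {n | c n = i} := by
  refine ⟨col r hr, col_surj hr, fun x y hx hxy => col_ne hr hx hxy, ?_⟩
  rintro i ⟨x, hmono, hsub⟩
  have h2 : 2 ≤ x 2 := hmono.id_le 2
  have h23 : x 2 < x 3 := hmono (by norm_num)
  have h3 : x 3 ∈ FEI x 3 := mem_FEI_self x 3
  have h4 : x 2 ^ x 3 ∈ FEI x 3 := Or.inl (Or.inl ⟨x 2, mem_FEI_self x 2, rfl⟩)
  have e3 : col r hr (x 3) = i := hsub 3 h3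
  have e4 : col r hr (x 2 ^ x 3) = i := hsub 3 h4
  exact col_ne hr h2 h23 (e3.trans e4.symm)

end Pool.Agent.Results.MP_952e1b_co.TypeIThreeCells
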